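import Pool.Agent.R692.HL.Main

/-!
# MP_0f2988_co: harmonic labelings of `G × ℤ` for infinite transitive `G`

For every infinite, connected, locally finite, vertex-transitive simple graph `G`, the Cartesian
product of `G` with the two-way infinite path on `ℤ` has a harmonic labeling.
-/

namespace Pool.Agent.Results.MP_0f2988_co.HarmonicLabeling

/-- The Cartesian product of `G` with the two-way infinite path on `ℤ`. -/
def prodZ {V : Type*} (G : SimpleGraph V) : SimpleGraph (V × ℤ) where
  Adj x y := (x.2 = y.2 ∧ G.Adj x.1 y.1) ∨ (x.1 = y.1 ∧ |x.2 - y.2| = 1)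
  symm := ⟨by
    rintro x y (⟨h1, h2⟩ | ⟨h1, h2⟩)
    · exact Or.inl ⟨h1.symm, h2.symm⟩
    · exact Or.inr ⟨h1.symm, by rw [abs_sub_comm]; exact h2⟩⟩
  loopless := ⟨by
    rintro x (⟨_, h2⟩ | ⟨_, h2⟩)
    · exact G.irrefl h2
    · simp at h2⟩

/-- A harmonic labeling of `H`: a bijection from the vertices onto `ℤ` whose value at every vertex
is the average of the values at its neighbours. -/
def IsHarmonicLabeling {W : Type*} (H : SimpleGraph W) (φ : W → ℤ) : Prop :=
  Function.Bijective φ ∧
    ∀ x, (φ x : ℚ) = (1 / ((H.neighborSet x).ncard : ℚ)) * ∑ᶠ y ∈ H.neighborSet x, (φ y : ℚ)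

open Pool.Agent.R692.HL in
theorem result {V : Type*} (G : SimpleGraph V) (hinf : Infinite V)
    (hfin : ∀ v, (G.neighborSet v).Finite) (hconn : G.Connected)
    (htrans : ∀ x y : V, ∃ φ : G ≃g G, φ x = y) :
    ∃ φ : V × ℤ → ℤ, IsHarmonicLabeling (prodZ G) φ := by
  classical
  letI : G.LocallyFinite := fun v => (hfin v).fintype
  obtain ⟨o⟩ : Nonempty V := inferInstance
  -- regularity
  have hd : ∀ v, G.degree v = G.degree o := by
    intro v
    obtain ⟨φ, hφ⟩ := htrans v o
    rw [← hφ, ← G.card_neighborFinset_eq_degree, ← G.card_neighborFinset_eq_degree]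
    refine Finset.card_bij' (fun w _ => φ w) (fun w _ => φ.symm w) ?_ ?_ ?_ ?_
    · intro w hw
      simp only [SimpleGraph.mem_neighborFinset] at hw ⊢
      exact φ.map_adj_iff.mpr hw
    · intro w hw
      simp only [SimpleGraph.mem_neighborFinset] at hw ⊢
      rw [← φ.map_adj_iff]; simpa using hw
    · intro w _; simp
    · intro w _; simp
  haveI : Countable V := by
    have : (Set.univ : Set V) = ⋃ r : ℕ, {h | G.dist o h ≤ r} := by
      ext x; simp only [Set.mem_univ, Set.mem_iUnion, true_iff]; exact ⟨G.dist o x, show G.dist o x ≤ G.dist o x from le_rfl⟩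
    rw [← Set.countable_univ_iff, this]
    exact Set.countable_iUnion fun r => (ball_finite G hconn o r).countable
  obtain ⟨s, hs⟩ := exists_labeling G hconn hd htrans
  refine ⟨ev (rho G (G.degree o)) s, hs, ?_⟩
  rintro ⟨g, n⟩
  set d := G.degree o with hdd
  set f := ev (rho G d) s with hf
  -- the neighbours
  set N : Finset (V × ℤ) := (G.neighborFinset g).image (fun w => (w, n)) ∪ {(g, n + 1), (g, n - 1)}
    with hN
  have hNS : (prodZ G).neighborSet (g, n) = (N : Set (V × ℤ)) := by
    ext ⟨w, m⟩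
    simp only [SimpleGraph.mem_neighborSet, prodZ, hN, Finset.coe_union, Finset.coe_image,
      Finset.coe_insert, Finset.coe_singleton, Set.mem_union, Set.mem_image, Finset.mem_coe,
      SimpleGraph.mem_neighborFinset, Set.mem_insert_iff, Set.mem_singleton_iff, Prod.mk.injEq]
    constructor
    · rintro (⟨h1, h2⟩ | ⟨h1, h2⟩)
      · exact Or.inl ⟨w, h2, rfl, h1⟩
      · right
        subst h1
        rcases (abs_eq (by norm_num : (0 : ℤ) ≤ 1)).mp h2 with h | h
        · right; exact ⟨rfl, by omega⟩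
        · left; exact ⟨rfl, by omega⟩
    · rintro (⟨a, h1, h2, h3⟩ | ⟨h1, h2⟩ | ⟨h1, h2⟩)
      · left; subst h2; exact ⟨h3, h1⟩
      · right; subst h1; subst h2; exact ⟨rfl, by simp⟩
      · right; subst h1; subst h2; exact ⟨rfl, by simp⟩
  have hdisj : Disjoint ((G.neighborFinset g).image (fun w => (w, n)))
      ({(g, n + 1), (g, n - 1)} : Finset (V × ℤ)) := by
    rw [Finset.disjoint_left]
    intro x hx hx2
    obtain ⟨w, _, rfl⟩ := Finset.mem_image.mp hx
    simp only [Finset.mem_insert, Finset.mem_singleton, Prod.mk.injEq] at hx2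
    omega
  have hne : ((g, n + 1) : V × ℤ) ∉ ({(g, n - 1)} : Finset (V × ℤ)) := by
    simp only [Finset.mem_singleton, Prod.mk.injEq]
    omega
  have hinj : Set.InjOn (fun w : V => (w, n)) (G.neighborFinset g : Set V) := by
    intro a _ b _ h; simpa using h
  have hcard : N.card = d + 2 := by
    rw [hN, Finset.card_union_of_disjoint hdisj, Finset.card_image_of_injOn hinj,
      G.card_neighborFinset_eq_degree, hd g, Finset.card_insert_of_notMem hne,
      Finset.card_singleton]
  have hsum : ∑ y ∈ N, (f y : ℚ) = ∑ w ∈ G.neighborFinset g, (f (w, n) : ℚ)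
      + ((f (g, n + 1) : ℚ) + (f (g, n - 1) : ℚ)) := by
    rw [hN, Finset.sum_union hdisj, Finset.sum_image hinj, Finset.sum_insert hne,
      Finset.sum_singleton]
  have hharm : (((d : ℤ) + 2) * f (g, n) : ℤ) = f (g, n + 1) + f (g, n - 1)
      + ∑ w ∈ G.neighborFinset g, f (w, n) := ev_harm G d s g n
  have hq : ((d : ℚ) + 2) * (f (g, n) : ℚ) = (f (g, n + 1) : ℚ) + (f (g, n - 1) : ℚ)
      + ∑ w ∈ G.neighborFinset g, (f (w, n) : ℚ) := by exact_mod_cast hharm
  rw [hNS, Set.ncard_coe_finset, hcard, finsum_mem_coe_finset, hsum]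
  push_cast
  have hpos : ((d : ℚ) + 2) ≠ 0 := by positivity
  rw [one_div, eq_inv_mul_iff_mul_eq₀ hpos, hq]
  ring

end Pool.Agent.Results.MP_0f2988_co.HarmonicLabeling
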