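import Pool.Agent.R736.HL.Main

set_option autoImplicit false

/-!
# Harmonic labelings of `G × ℤ`

For every infinite, connected, locally finite, vertex-transitive graph `G`, the Cartesian product `G × ℤ` has a
harmonic labeling.
-/

namespace Pool.Agent.Results.MP_0f2988_co.HarmonicLabelings

/-- The Cartesian product of `G` with the two-way infinite path on `ℤ`. -/
def prodZ {V : Type*} (G : SimpleGraph V) : SimpleGraph (V × ℤ) where
  Adj p q := (p.2 = q.2 ∧ G.Adj p.1 q.1) ∨ (p.1 = q.1 ∧ |p.2 - q.2| = 1)
  symm := ⟨by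
    rintro ⟨v, n⟩ ⟨w, m⟩ (⟨h1, h2⟩ | ⟨h1, h2⟩)
    · exact Or.inl ⟨h1.symm, h2.symm⟩
    · exact Or.inr ⟨h1.symm, by rw [abs_sub_comm]; exact h2⟩⟩
  loopless := ⟨by
    rintro ⟨v, n⟩ (⟨_, h⟩ | ⟨_, h⟩)
    · exact G.irrefl h
    · simp at h⟩

/-- `φ` is harmonic on `H`: its value at every vertex is the average of its values at the neighbours. -/
def IsHarmonic {W : Type*} (H : SimpleGraph W) [H.LocallyFinite] (φ : W → ℤ) : Prop :=
  ∀ x, (φ x : ℚ) = (1 / (H.degree x : ℚ)) * ∑ y ∈ H.neighborFinset x, (φ y : ℚ)

/-- `φ` is a harmonic labeling of `H`. -/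
def IsHarmonicLabeling {W : Type*} (H : SimpleGraph W) [H.LocallyFinite] (φ : W → ℤ) : Prop :=
  IsHarmonic H φ ∧ Function.Bijective φ

/-- The automorphism group of `G` acts transitively on the vertices. -/
def IsTransitive {V : Type*} (G : SimpleGraph V) : Prop := ∀ x y : V, ∃ φ : G ≃g G, φ x = y

open Classical in
theorem neighborFinset_prodZ {V : Type*} (G : SimpleGraph V) [G.LocallyFinite]
    [(prodZ G).LocallyFinite] (x : V) (n : ℤ) :
    (prodZ G).neighborFinset (x, n) =
      (G.neighborFinset x).image (fun y => (y, n)) ∪ {(x, n + 1), (x, n - 1)} := by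
  ext ⟨y, m⟩
  rw [SimpleGraph.mem_neighborFinset, Finset.mem_union, Finset.mem_image, Finset.mem_insert,
    Finset.mem_singleton]
  simp only [SimpleGraph.mem_neighborFinset, Prod.mk.injEq]
  constructor
  · rintro (⟨h1, h2⟩ | ⟨h1, h2⟩)
    · exact Or.inl ⟨y, h2, rfl, h1⟩
    · right
      simp only at h1 h2
      rcases (abs_eq (zero_le_one' ℤ)).1 h2 with h | h
      · exact Or.inr ⟨h1.symm, by omega⟩
      · exact Or.inl ⟨h1.symm, by omega⟩
  · rintro (⟨z, hz, rfl, rfl⟩ | ⟨rfl, rfl⟩ | ⟨rfl, rfl⟩)
    · exact Or.inl ⟨rfl, hz⟩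
    · exact Or.inr ⟨rfl, by simp⟩
    · exact Or.inr ⟨rfl, by simp⟩

/-- **Theorem.** Let `G` be an infinite, connected, locally finite, vertex-transitive graph.
Then `G × ℤ` is locally finite and admits a harmonic labeling. -/
theorem result {V : Type*} [Infinite V] (G : SimpleGraph V) [G.LocallyFinite] (hG : G.Connected)
    (ht : IsTransitive G) :
    (∀ x, ((prodZ G).neighborSet x).Finite) ∧
    ∀ [(prodZ G).LocallyFinite], ∃ φ : V × ℤ → ℤ, IsHarmonicLabeling (prodZ G) φ := by
  classical
  refine ⟨?_, ?_⟩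
  · rintro ⟨x, n⟩
    refine (((G.neighborFinset x).image (fun y => (y, n)) ∪
      ({(x, n + 1), (x, n - 1)} : Finset (V × ℤ))).finite_toSet).subset ?_
    rintro ⟨y, m⟩ hy
    rw [Finset.mem_coe, Finset.mem_union, Finset.mem_image, Finset.mem_insert, Finset.mem_singleton]
    rcases hy with ⟨h1, h2⟩ | ⟨h1, h2⟩
    · exact Or.inl ⟨y, by rw [SimpleGraph.mem_neighborFinset]; exact h2, by simp only at h1; rw [h1]⟩
    · right
      simp only at h1 h2
      rcases (abs_eq (zero_le_one' ℤ)).1 h2 with h | h
      · exact Or.inr (Prod.ext h1.symm (by simp only; omega))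
      · exact Or.inl (Prod.ext h1.symm (by simp only; omega))
  intro _
  obtain ⟨φ, hbij, hφ⟩ := Pool.Agent.R736.HL.main G hG ht
  refine ⟨φ, ?_, hbij⟩
  rintro ⟨x, n⟩
  have hsum : ∑ y ∈ (prodZ G).neighborFinset (x, n), (φ y : ℚ) =
      ((G.degree x : ℚ) + 2) * φ (x, n) := by
    rw [neighborFinset_prodZ, Finset.sum_union, Finset.sum_image, Finset.sum_pair]
    · have h := hφ x n
      have h' : ((φ (x, n + 1) : ℤ) : ℚ) + φ (x, n - 1) = ((G.degree x : ℚ) + 2) * φ (x, n) -
          ∑ y ∈ G.neighborFinset x, (φ (y, n) : ℚ) := by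
        exact_mod_cast h
      rw [h']; ring
    · intro h
      have := congr_arg Prod.snd h
      simp only at this
      omega
    · intro a _ b _ hab
      exact congr_arg Prod.fst hab
    · rw [Finset.disjoint_left]
      rintro ⟨y, m⟩ h1 h2
      rw [Finset.mem_image] at h1
      obtain ⟨z, _, hz⟩ := h1
      have h3 : n = m := congr_arg Prod.snd hz
      rw [Finset.mem_insert, Finset.mem_singleton] at h2
      rcases h2 with h2 | h2
      · have := congr_arg Prod.snd h2; simp only at this; omega
      · have := congr_arg Prod.snd h2; simp only at this; omega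
  have hdeg : ((prodZ G).degree (x, n) : ℚ) = (G.degree x : ℚ) + 2 := by
    have : (prodZ G).degree (x, n) = G.degree x + 2 := by
      rw [← SimpleGraph.card_neighborFinset_eq_degree, neighborFinset_prodZ, Finset.card_union_of_disjoint,
        Finset.card_image_of_injective, SimpleGraph.card_neighborFinset_eq_degree, Finset.card_pair]
      · intro h
        have := congr_arg Prod.snd h
        simp only at this
        omega
      · intro a b hab
        exact congr_arg Prod.fst hab
      · rw [Finset.disjoint_left]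
        rintro ⟨y, m⟩ h1 h2
        rw [Finset.mem_image] at h1
        obtain ⟨z, _, hz⟩ := h1
        have h3 : n = m := congr_arg Prod.snd hz
        rw [Finset.mem_insert, Finset.mem_singleton] at h2
        rcases h2 with h2 | h2
        · have := congr_arg Prod.snd h2; simp only at this; omega
        · have := congr_arg Prod.snd h2; simp only at this; omega
    rw [this]; push_cast; ring
  rw [hsum, hdeg]
  have hne : ((G.degree x : ℚ) + 2) ≠ 0 := by positivity
  field_simp

end Pool.Agent.Results.MP_0f2988_co.HarmonicLabelings
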